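import Pool.Agent.Helper66.TU.Defs

/-!
# Module SIGEST: the involution near `y = ∞`
-/

namespace GWA

section SIGEST

variable {K : Type} [NormedField K] [Algebra GaussianInt K] [NeZero (2 : K)]
  {π : GaussianInt}

/-- the ring of integers -/
def LHU.sgO (h : LHU K π) : Subring K where
  carrier := {x | ‖x‖ ≤ 1}
  mul_mem' := by
    intro a b ha hb
    simp only [Set.mem_setOf_eq] at ha hb ⊢
    rw [norm_mul]
    exact mul_le_one₀ ha (norm_nonneg _) hb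
  one_mem' := by simp
  add_mem' := by
    intro a b ha hb
    exact (h.ultra a b).trans (max_le ha hb)
  zero_mem' := by simp
  neg_mem' := by
    intro a ha
    simpa using ha

theorem LHU.sgO_mem (h : LHU K π) {x : K} : x ∈ h.sgO ↔ ‖x‖ ≤ 1 := Iff.rfl

theorem LHU.sgO_ofNat (h : LHU K π) (n : ℕ) [n.AtLeastTwo] : (OfNat.ofNat n : K) ∈ h.sgO :=
  h.norm_ofNat_le n

/-- normalized denominator -/
def sgD (x t : K) : K := (3 * x - 1) - (x + 1) * t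
/-- normalized sum -/
def sgS (x t : K) : K := 1 + (x + 1) * t
/-- normalized first factor -/
def sgA (x t : K) : K := (2 * x - 1) * t - 1
/-- normalized second factor -/
def sgB (x t : K) : K := (x + 1) * t - 2

theorem LHU.norm_eq_of_sub_lt (h : LHU K π) {a b : K} (hb : ‖b‖ = 1) (hab : ‖a - b‖ < 1) :
    ‖a‖ = 1 := by
  have h1 : a = b + (a - b) := by ring
  rw [h1, h.norm_sum_eq (by rw [hb]; exact hab), hb]

theorem LHU.norm_mul_lt_of (h : LHU K π) {a b : K} (ha : a ∈ h.sgO) (hb : ‖b‖ < 1) :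
    ‖a * b‖ < 1 := by
  rw [norm_mul]
  have h1 : ‖a‖ ≤ 1 := ha
  calc ‖a‖ * ‖b‖ ≤ 1 * ‖b‖ := mul_le_mul_of_nonneg_right h1 (norm_nonneg _)
    _ < 1 := by rw [one_mul]; exact hb

theorem LHU.norm_mul_le_of (h : LHU K π) {a b : K} (ha : a ∈ h.sgO) :
    ‖a * b‖ ≤ ‖b‖ := by
  rw [norm_mul]
  have h1 : ‖a‖ ≤ 1 := ha
  calc ‖a‖ * ‖b‖ ≤ 1 * ‖b‖ := mul_le_mul_of_nonneg_right h1 (norm_nonneg _)
    _ = ‖b‖ := one_mul _

theorem LHU.sg_basic (h : LHU K π) {x t : K} (hx : ‖x‖ ≤ 1) (h3 : ‖3 * x - 1‖ = 1)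
    (ht : ‖t‖ < 1) :
    ‖sgD x t‖ = 1 ∧ ‖sgS x t‖ = 1 ∧ ‖sgA x t‖ = 1 ∧ ‖sgB x t‖ = 1 := by
  have hxm : x ∈ h.sgO := hx
  have h2 : ‖(2 : K)‖ = 1 := h.norm_two h.odd
  refine ⟨?_, ?_, ?_, ?_⟩
  · apply h.norm_eq_of_sub_lt h3
    have e : sgD x t - (3 * x - 1) = -(x + 1) * t := by unfold sgD; ring
    rw [e]
    exact h.norm_mul_lt_of (by repeat' first | assumption | apply Subring.one_mem | apply LHU.sgO_ofNat | apply Subring.add_mem | apply Subring.sub_mem | apply Subring.mul_mem | apply Subring.neg_mem | apply Subring.pow_mem) ht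
  · apply h.norm_eq_of_sub_lt (norm_one (α := K))
    have e : sgS x t - 1 = (x + 1) * t := by unfold sgS; ring
    rw [e]
    exact h.norm_mul_lt_of (by repeat' first | assumption | apply Subring.one_mem | apply LHU.sgO_ofNat | apply Subring.add_mem | apply Subring.sub_mem | apply Subring.mul_mem | apply Subring.neg_mem | apply Subring.pow_mem) ht
  · apply h.norm_eq_of_sub_lt (b := -1) (by rw [norm_neg, norm_one])
    have e : sgA x t - (-1) = (2 * x - 1) * t := by unfold sgA; ring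
    rw [e]
    exact h.norm_mul_lt_of (by repeat' first | assumption | apply Subring.one_mem | apply LHU.sgO_ofNat | apply Subring.add_mem | apply Subring.sub_mem | apply Subring.mul_mem | apply Subring.neg_mem | apply Subring.pow_mem) ht
  · apply h.norm_eq_of_sub_lt (b := -2) (by rw [norm_neg, h2])
    have e : sgB x t - (-2) = (x + 1) * t := by unfold sgB; ring
    rw [e]
    exact h.norm_mul_lt_of (by repeat' first | assumption | apply Subring.one_mem | apply LHU.sgO_ofNat | apply Subring.add_mem | apply Subring.sub_mem | apply Subring.mul_mem | apply Subring.neg_mem | apply Subring.pow_mem) ht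

omit [Algebra GaussianInt K] [NeZero (2 : K)] in
theorem sD_sg {y : K} (hy : y ≠ 0) (x : K) : sD x y = y * sgD x y⁻¹ := by
  unfold sD sgD; field_simp; ring

omit [Algebra GaussianInt K] [NeZero (2 : K)] in
theorem sS_sg {y : K} (hy : y ≠ 0) (x : K) : sS x y = y * sgS x y⁻¹ := by
  unfold sS sgS; field_simp; ring

omit [Algebra GaussianInt K] [NeZero (2 : K)] in
theorem sQ_sg {y : K} (hy : y ≠ 0) (x : K) :
    sQ x y = y ^ 2 * (sgA x y⁻¹ * sgB x y⁻¹) := by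
  unfold sQ sgA sgB; field_simp; ring

omit [Algebra GaussianInt K] [NeZero (2 : K)] in
theorem rho_sg {y : K} (hy : y ≠ 0) (x : K) :
    rho x y = -2 * sgS x y⁻¹ / sgD x y⁻¹ := by
  unfold rho
  rw [sD_sg hy, sS_sg hy]
  rw [show -2 * (y * sgS x y⁻¹) = y * (-2 * sgS x y⁻¹) by ring, mul_div_mul_left _ _ hy]

omit [Algebra GaussianInt K] [NeZero (2 : K)] in
theorem kap_sg {y : K} (hy : y ≠ 0) (x : K) :
    kap x y = -4 * sgS x y⁻¹ * (sgA x y⁻¹ * sgB x y⁻¹) / sgD x y⁻¹ ^ 3 := by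
  unfold kap
  rw [sD_sg hy, sS_sg hy, sQ_sg hy]
  rw [show -4 * (y * sgS x y⁻¹) * (y ^ 2 * (sgA x y⁻¹ * sgB x y⁻¹)) =
    y ^ 3 * (-4 * sgS x y⁻¹ * (sgA x y⁻¹ * sgB x y⁻¹)) by ring, mul_pow,
    mul_div_mul_left _ _ (pow_ne_zero 3 hy)]

/-- the involution near `y = ∞` -/
theorem LHU.sig_est (h : LHU K π) {x y : K} (hx : ‖x‖ ≤ 1) (h3 : ‖3 * x - 1‖ = 1) (hy : 1 < ‖y‖) :
    ‖sD x y‖ = ‖y‖ ∧ ‖sS x y‖ = ‖y‖ ∧ ‖sQ x y‖ = ‖y‖ ^ 2 ∧
    ‖rho x y‖ = 1 ∧ ‖kap x y‖ = 1 ∧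
    ‖rho x y + 2 / (3 * x - 1)‖ ≤ ‖y‖⁻¹ ∧
    ‖kap x y - rho x y ^ 3‖ ≤ ‖y‖⁻¹ ∧
    ‖sx x y‖ ≤ 1 ∧ ‖3 * sx x y - 1‖ = 1 ∧ ‖sy x y‖ = ‖y‖ ∧ ‖sy x y / y - rho x y‖ ≤ ‖y‖⁻¹ := by
  have hy0 : y ≠ 0 := by
    rintro rfl
    rw [norm_zero] at hy
    linarith
  have h2 : ‖(2 : K)‖ = 1 := h.norm_two h.odd
  have h4 : ‖(4 : K)‖ = 1 := by
    rw [show (4 : K) = 2 * 2 by norm_num, norm_mul, h2, mul_one]
  have hxm : x ∈ h.sgO := hx
  have htn : ‖y⁻¹‖ = ‖y‖⁻¹ := norm_inv y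
  have ht : ‖y⁻¹‖ < 1 := by rw [htn]; exact inv_lt_one_of_one_lt₀ hy
  have htm : y⁻¹ ∈ h.sgO := ht.le
  obtain ⟨hD, hS, hA, hB⟩ := h.sg_basic hx h3 ht
  have hD0 : sgD x y⁻¹ ≠ 0 := by rw [← norm_ne_zero_iff, hD]; norm_num
  have h30 : (3 * x - 1) ≠ 0 := by rw [← norm_ne_zero_iff, h3]; norm_num
  have hDi : (sgD x y⁻¹)⁻¹ ∈ h.sgO := by
    rw [h.sgO_mem, norm_inv, hD, inv_one]
  have hDm : sgD x y⁻¹ ∈ h.sgO := hD.le
  have hSm : sgS x y⁻¹ ∈ h.sgO := hS.le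
  have h3i : (3 * x - 1)⁻¹ ∈ h.sgO := by
    rw [h.sgO_mem, norm_inv, h3, inv_one]
  have hrho : ‖rho x y‖ = 1 := by
    rw [rho_sg hy0, norm_div, norm_mul, norm_neg, h2, hS, hD]; norm_num
  have hrm : rho x y ∈ h.sgO := hrho.le
  refine ⟨?_, ?_, ?_, hrho, ?_, ?_, ?_, ?_, ?_, ?_, ?_⟩
  · rw [sD_sg hy0, norm_mul, hD, mul_one]
  · rw [sS_sg hy0, norm_mul, hS, mul_one]
  · rw [sQ_sg hy0, norm_mul, norm_mul, hA, hB, mul_one, mul_one, norm_pow]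
  · rw [kap_sg hy0, norm_div, norm_mul, norm_mul, norm_mul, norm_neg, h4, hS, hA, hB, norm_pow, hD]
    norm_num
  · rw [← htn]
    have e : rho x y + 2 / (3 * x - 1) =
        (-2 * (x + 1) * (3 * x) * (sgD x y⁻¹)⁻¹ * (3 * x - 1)⁻¹) * y⁻¹ := by
      rw [rho_sg hy0]
      have e1 : -2 * sgS x y⁻¹ * (3 * x - 1) + 2 * sgD x y⁻¹ = -2 * (x + 1) * (3 * x) * y⁻¹ := by
        unfold sgS sgD; ring
      generalize sgS x y⁻¹ = S at *
      generalize sgD x y⁻¹ = D at *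
      have e2 : -2 * S / D + 2 / (3 * x - 1) =
          (-2 * S * (3 * x - 1) + 2 * D) * (D⁻¹ * (3 * x - 1)⁻¹) := by
        field_simp
      rw [e2, e1]; ring
    rw [e]
    exact h.norm_mul_le_of (by repeat' first | assumption | apply Subring.one_mem | apply LHU.sgO_ofNat | apply Subring.add_mem | apply Subring.sub_mem | apply Subring.mul_mem | apply Subring.neg_mem | apply Subring.pow_mem)
  · rw [← htn]
    have e : kap x y - rho x y ^ 3 =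
        (-4 * sgS x y⁻¹ * ((2 * x - 1) * (x + 1) * y⁻¹ - 2 * (2 * x - 1) - (x + 1) - 4 * (x + 1)
          - 2 * (x + 1) ^ 2 * y⁻¹) * (sgD x y⁻¹)⁻¹ ^ 3) * y⁻¹ := by
      rw [rho_sg hy0, kap_sg hy0]
      have e1 : sgA x y⁻¹ * sgB x y⁻¹ = 2 * sgS x y⁻¹ ^ 2 +
          ((2 * x - 1) * (x + 1) * y⁻¹ - 2 * (2 * x - 1) - (x + 1) - 4 * (x + 1)
          - 2 * (x + 1) ^ 2 * y⁻¹) * y⁻¹ := by
        unfold sgS sgA sgB; ring
      rw [e1]
      generalize sgS x y⁻¹ = S at *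
      generalize sgD x y⁻¹ = D at *
      field_simp
      ring
    rw [e]
    exact h.norm_mul_le_of (by repeat' first | assumption | apply Subring.one_mem | apply LHU.sgO_ofNat | apply Subring.add_mem | apply Subring.sub_mem | apply Subring.mul_mem | apply Subring.neg_mem | apply Subring.pow_mem)
  · have : sx x y ∈ h.sgO := by unfold sx; repeat' first | assumption | apply Subring.one_mem | apply LHU.sgO_ofNat | apply Subring.add_mem | apply Subring.sub_mem | apply Subring.mul_mem | apply Subring.neg_mem | apply Subring.pow_mem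
    exact this
  · have e : 3 * sx x y - 1 = (4 + (-2 * (x + 1) - 6 * (x + 1) * (x - 1)) * y⁻¹) *
        (sgD x y⁻¹)⁻¹ := by
      unfold sx
      rw [rho_sg hy0]
      have e1 : 2 * sgD x y⁻¹ - 6 * sgS x y⁻¹ * (x - 1) =
          4 + (-2 * (x + 1) - 6 * (x + 1) * (x - 1)) * y⁻¹ := by
        unfold sgS sgD; ring
      rw [← e1]
      generalize sgS x y⁻¹ = S at *
      generalize sgD x y⁻¹ = D at *
      field_simp
      ring
    rw [e, norm_mul, norm_inv, hD, inv_one, mul_one]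
    apply h.norm_eq_of_sub_lt h4
    rw [add_sub_cancel_left]
    exact h.norm_mul_lt_of (by repeat' first | assumption | apply Subring.one_mem | apply LHU.sgO_ofNat | apply Subring.add_mem | apply Subring.sub_mem | apply Subring.mul_mem | apply Subring.neg_mem | apply Subring.pow_mem) ht
  · have e : sy x y = rho x y * y + (1 - rho x y) := by unfold sy; ring
    have h5 : ‖rho x y * y‖ = ‖y‖ := by rw [norm_mul, hrho, one_mul]
    have h6 : (1 - rho x y) ∈ h.sgO := by repeat' first | assumption | apply Subring.one_mem | apply LHU.sgO_ofNat | apply Subring.add_mem | apply Subring.sub_mem | apply Subring.mul_mem | apply Subring.neg_mem | apply Subring.pow_mem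
    rw [e, h.norm_sum_eq, h5]
    rw [h5]
    exact lt_of_le_of_lt h6 hy
  · have e : sy x y / y - rho x y = (1 - rho x y) * y⁻¹ := by unfold sy; field_simp; ring
    rw [e, ← htn]
    exact h.norm_mul_le_of (by repeat' first | assumption | apply Subring.one_mem | apply LHU.sgO_ofNat | apply Subring.add_mem | apply Subring.sub_mem | apply Subring.mul_mem | apply Subring.neg_mem | apply Subring.pow_mem)

/-- variation of the involution in the first variable -/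
theorem LHU.sig_var (h : LHU K π) {x y Δ : K} (hx : ‖x‖ ≤ 1) (h3 : ‖3 * x - 1‖ = 1)
    (hy : 1 < ‖y‖) (hΔ : ‖Δ‖ < 1) :
    ‖sx (x + Δ) y - sx x y + rho x y ^ 2 * Δ‖ ≤ max ‖y‖⁻¹ ‖Δ‖ * ‖Δ‖ ∧
    ‖rho (x + Δ) y - rho x y‖ ≤ ‖Δ‖ ∧ ‖kap (x + Δ) y - kap x y‖ ≤ ‖Δ‖ := by
  have hy0 : y ≠ 0 := by
    rintro rfl
    rw [norm_zero] at hy
    linarith
  have hxm : x ∈ h.sgO := hx
  have hΔm : Δ ∈ h.sgO := hΔ.le
  have hx' : ‖x + Δ‖ ≤ 1 := by
    have : x + Δ ∈ h.sgO := by repeat' first | assumption | apply Subring.one_mem | apply LHU.sgO_ofNat | apply Subring.add_mem | apply Subring.sub_mem | apply Subring.mul_mem | apply Subring.neg_mem | apply Subring.pow_mem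
    exact this
  have h3' : ‖3 * (x + Δ) - 1‖ = 1 := by
    apply h.norm_eq_of_sub_lt h3
    rw [show 3 * (x + Δ) - 1 - (3 * x - 1) = 3 * Δ by ring]
    exact h.norm_mul_lt_of (by repeat' first | assumption | apply Subring.one_mem | apply LHU.sgO_ofNat | apply Subring.add_mem | apply Subring.sub_mem | apply Subring.mul_mem | apply Subring.neg_mem | apply Subring.pow_mem) hΔ
  have htn : ‖y⁻¹‖ = ‖y‖⁻¹ := norm_inv y
  have ht : ‖y⁻¹‖ < 1 := by rw [htn]; exact inv_lt_one_of_one_lt₀ hy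
  have htm : y⁻¹ ∈ h.sgO := ht.le
  obtain ⟨hD, hS, hA, hB⟩ := h.sg_basic hx h3 ht
  obtain ⟨hD', hS', hA', hB'⟩ := h.sg_basic hx' h3' ht
  have hD0 : sgD x y⁻¹ ≠ 0 := by rw [← norm_ne_zero_iff, hD]; norm_num
  have hD0' : sgD (x + Δ) y⁻¹ ≠ 0 := by rw [← norm_ne_zero_iff, hD']; norm_num
  have hDi : (sgD x y⁻¹)⁻¹ ∈ h.sgO := by rw [h.sgO_mem, norm_inv, hD, inv_one]
  have hDi' : (sgD (x + Δ) y⁻¹)⁻¹ ∈ h.sgO := by rw [h.sgO_mem, norm_inv, hD', inv_one]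
  have hDm : sgD x y⁻¹ ∈ h.sgO := hD.le
  have hSm : sgS x y⁻¹ ∈ h.sgO := hS.le
  have hAm : sgA x y⁻¹ ∈ h.sgO := hA.le
  have hBm : sgB x y⁻¹ ∈ h.sgO := hB.le
  have hDm' : sgD (x + Δ) y⁻¹ ∈ h.sgO := hD'.le
  have hSm' : sgS (x + Δ) y⁻¹ ∈ h.sgO := hS'.le
  have hAm' : sgA (x + Δ) y⁻¹ ∈ h.sgO := hA'.le
  have hBm' : sgB (x + Δ) y⁻¹ ∈ h.sgO := hB'.le
  have eD : sgD (x + Δ) y⁻¹ = sgD x y⁻¹ + (3 - y⁻¹) * Δ := by unfold sgD; ring
  have eS : sgS (x + Δ) y⁻¹ = sgS x y⁻¹ + y⁻¹ * Δ := by unfold sgS; ring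
  have eA : sgA (x + Δ) y⁻¹ = sgA x y⁻¹ + 2 * y⁻¹ * Δ := by unfold sgA; ring
  have eB : sgB (x + Δ) y⁻¹ = sgB x y⁻¹ + y⁻¹ * Δ := by unfold sgB; ring
  have er : rho (x + Δ) y - rho x y = (-2 * (y⁻¹ * sgD x y⁻¹ - (3 - y⁻¹) * sgS x y⁻¹) *
      ((sgD x y⁻¹)⁻¹ * (sgD (x + Δ) y⁻¹)⁻¹)) * Δ := by
    rw [rho_sg hy0, rho_sg hy0]
    have e1 : -2 * (y⁻¹ * sgD x y⁻¹ - (3 - y⁻¹) * sgS x y⁻¹) * Δ =
        -2 * (sgS (x + Δ) y⁻¹ * sgD x y⁻¹ - sgS x y⁻¹ * sgD (x + Δ) y⁻¹) := by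
      rw [eS, eD]; ring
    have e2 : -2 * (y⁻¹ * sgD x y⁻¹ - (3 - y⁻¹) * sgS x y⁻¹) *
      ((sgD x y⁻¹)⁻¹ * (sgD (x + Δ) y⁻¹)⁻¹) * Δ =
      (-2 * (y⁻¹ * sgD x y⁻¹ - (3 - y⁻¹) * sgS x y⁻¹) * Δ) *
      ((sgD x y⁻¹)⁻¹ * (sgD (x + Δ) y⁻¹)⁻¹) := by ring
    rw [e2, e1]
    generalize sgS x y⁻¹ = S at *
    generalize sgD x y⁻¹ = D at *
    generalize sgS (x + Δ) y⁻¹ = S' at *
    generalize sgD (x + Δ) y⁻¹ = D' at *
    field_simp
    ring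
  refine ⟨?_, ?_, ?_⟩
  · have ex : sx (x + Δ) y - sx x y + rho x y ^ 2 * Δ =
      (((-2 * (sgD x y⁻¹ + sgS x y⁻¹) * (x - 1) * sgD x y⁻¹ - 2 * Δ * sgD x y⁻¹ ^ 2 +
        6 * sgD x y⁻¹ * sgS x y⁻¹ * (x + 1)) * y⁻¹ +
        (4 * sgS x y⁻¹ ^ 2 * (3 - y⁻¹)) * Δ) *
        ((sgD x y⁻¹)⁻¹ ^ 2 * (sgD (x + Δ) y⁻¹)⁻¹)) * Δ := by
      have e0 : sx (x + Δ) y - sx x y + rho x y ^ 2 * Δ =
          (rho (x + Δ) y - rho x y) * (x - 1) + rho (x + Δ) y * Δ + rho x y ^ 2 * Δ := by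
        unfold sx; ring
      rw [e0, er, rho_sg hy0, rho_sg hy0]
      have e1 : (-2 * (sgD x y⁻¹ + sgS x y⁻¹) * (x - 1) * sgD x y⁻¹ - 2 * Δ * sgD x y⁻¹ ^ 2 +
        6 * sgD x y⁻¹ * sgS x y⁻¹ * (x + 1)) * y⁻¹ +
        (4 * sgS x y⁻¹ ^ 2 * (3 - y⁻¹)) * Δ =
        -2 * (y⁻¹ * sgD x y⁻¹ - (3 - y⁻¹) * sgS x y⁻¹) * (x - 1) * sgD x y⁻¹ -
          2 * sgS (x + Δ) y⁻¹ * sgD x y⁻¹ ^ 2 + 4 * sgS x y⁻¹ ^ 2 * sgD (x + Δ) y⁻¹ := by
        rw [eS, eD]; unfold sgD sgS; ring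
      rw [e1]
      generalize sgS x y⁻¹ = S at *
      generalize sgD x y⁻¹ = D at *
      generalize sgS (x + Δ) y⁻¹ = S' at *
      generalize sgD (x + Δ) y⁻¹ = D' at *
      generalize y⁻¹ = t at *
      field_simp
      ring
    rw [ex, norm_mul]
    apply mul_le_mul_of_nonneg_right _ (norm_nonneg _)
    rw [mul_comm]
    refine (h.norm_mul_le_of (by repeat' first | assumption | apply Subring.one_mem | apply LHU.sgO_ofNat | apply Subring.add_mem | apply Subring.sub_mem | apply Subring.mul_mem | apply Subring.neg_mem | apply Subring.pow_mem)).trans ?_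
    refine (h.ultra _ _).trans ?_
    rw [← htn]
    apply max_le_max
    · exact h.norm_mul_le_of (by repeat' first | assumption | apply Subring.one_mem | apply LHU.sgO_ofNat | apply Subring.add_mem | apply Subring.sub_mem | apply Subring.mul_mem | apply Subring.neg_mem | apply Subring.pow_mem)
    · exact h.norm_mul_le_of (by repeat' first | assumption | apply Subring.one_mem | apply LHU.sgO_ofNat | apply Subring.add_mem | apply Subring.sub_mem | apply Subring.mul_mem | apply Subring.neg_mem | apply Subring.pow_mem)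
  · rw [er]
    exact h.norm_mul_le_of (by repeat' first | assumption | apply Subring.one_mem | apply LHU.sgO_ofNat | apply Subring.add_mem | apply Subring.sub_mem | apply Subring.mul_mem | apply Subring.neg_mem | apply Subring.pow_mem)
  · have ek : kap (x + Δ) y - kap x y =
      (-4 * ((y⁻¹ * sgA (x + Δ) y⁻¹ * sgB (x + Δ) y⁻¹ + 2 * y⁻¹ * sgS x y⁻¹ * sgB (x + Δ) y⁻¹ +
        y⁻¹ * sgS x y⁻¹ * sgA x y⁻¹) * sgD x y⁻¹ ^ 3 - sgS x y⁻¹ * sgA x y⁻¹ * sgB x y⁻¹ *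
        ((3 - y⁻¹) * (sgD (x + Δ) y⁻¹ ^ 2 + sgD (x + Δ) y⁻¹ * sgD x y⁻¹ + sgD x y⁻¹ ^ 2))) *
        ((sgD x y⁻¹)⁻¹ ^ 3 * (sgD (x + Δ) y⁻¹)⁻¹ ^ 3)) * Δ := by
      rw [kap_sg hy0, kap_sg hy0]
      have e1 : (y⁻¹ * sgA (x + Δ) y⁻¹ * sgB (x + Δ) y⁻¹ +
        2 * y⁻¹ * sgS x y⁻¹ * sgB (x + Δ) y⁻¹ +
        y⁻¹ * sgS x y⁻¹ * sgA x y⁻¹) * Δ =
        sgS (x + Δ) y⁻¹ * sgA (x + Δ) y⁻¹ * sgB (x + Δ) y⁻¹ -
          sgS x y⁻¹ * sgA x y⁻¹ * sgB x y⁻¹ := by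
        rw [eS, eA, eB]; ring
      have e2 : (3 - y⁻¹) * (sgD (x + Δ) y⁻¹ ^ 2 + sgD (x + Δ) y⁻¹ * sgD x y⁻¹ +
          sgD x y⁻¹ ^ 2) * Δ = sgD (x + Δ) y⁻¹ ^ 3 - sgD x y⁻¹ ^ 3 := by
        rw [eD]; ring
      have e3 : (-4 * ((y⁻¹ * sgA (x + Δ) y⁻¹ * sgB (x + Δ) y⁻¹ +
        2 * y⁻¹ * sgS x y⁻¹ * sgB (x + Δ) y⁻¹ +
        y⁻¹ * sgS x y⁻¹ * sgA x y⁻¹) * sgD x y⁻¹ ^ 3 - sgS x y⁻¹ * sgA x y⁻¹ * sgB x y⁻¹ *
        ((3 - y⁻¹) * (sgD (x + Δ) y⁻¹ ^ 2 + sgD (x + Δ) y⁻¹ * sgD x y⁻¹ + sgD x y⁻¹ ^ 2))) *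
        ((sgD x y⁻¹)⁻¹ ^ 3 * (sgD (x + Δ) y⁻¹)⁻¹ ^ 3)) * Δ =
        (-4 * (((y⁻¹ * sgA (x + Δ) y⁻¹ * sgB (x + Δ) y⁻¹ +
        2 * y⁻¹ * sgS x y⁻¹ * sgB (x + Δ) y⁻¹ +
        y⁻¹ * sgS x y⁻¹ * sgA x y⁻¹) * Δ) * sgD x y⁻¹ ^ 3 - sgS x y⁻¹ * sgA x y⁻¹ * sgB x y⁻¹ *
        ((3 - y⁻¹) * (sgD (x + Δ) y⁻¹ ^ 2 + sgD (x + Δ) y⁻¹ * sgD x y⁻¹ + sgD x y⁻¹ ^ 2) * Δ)) *
        ((sgD x y⁻¹)⁻¹ ^ 3 * (sgD (x + Δ) y⁻¹)⁻¹ ^ 3)) := by ring
      rw [e3, e1, e2]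
      clear e1 e2 e3 eS eD eA eB er
      generalize sgS x y⁻¹ = S at *
      generalize sgD x y⁻¹ = D at *
      generalize sgS (x + Δ) y⁻¹ = S' at *
      generalize sgD (x + Δ) y⁻¹ = D' at *
      generalize sgA x y⁻¹ = A at *
      generalize sgA (x + Δ) y⁻¹ = A' at *
      generalize sgB x y⁻¹ = B at *
      generalize sgB (x + Δ) y⁻¹ = B' at *
      field_simp
      ring
    rw [ek]
    exact h.norm_mul_le_of (by repeat' first | assumption | apply Subring.one_mem | apply LHU.sgO_ofNat | apply Subring.add_mem | apply Subring.sub_mem | apply Subring.mul_mem | apply Subring.neg_mem | apply Subring.pow_mem)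

end SIGEST

end GWA
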